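import Pool.Agent.helper43.DHB.SpecB

/-!
# Row d2:bBAS (MP_5823cb_al): the increments of level `s` (helper40)
-/

set_option autoImplicit false

open Filter Topology MeasureTheory
open scoped commutatorElement

namespace Pool.Agent.helper90.DH

open Pool.Agent.helper64.D2

/-- piecewise quadratic functions in the coordinate of the unit cell. -/
noncomputable def bBAS_Q (a1 b1 c1 a2 b2 c2 t : ℝ) : ℝ :=
  if t < 1 / 2 then a1 + b1 * (t - 1 / 2) + c1 * (t - 1 / 2) ^ 2 else a2 + b2 * (t - 1 / 2) + c2 * (t - 1 / 2) ^ 2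

theorem bBAS_half (a b c x y : ℝ) :
    ∫ t in x..y, (a + b * (t - 1 / 2) + c * (t - 1 / 2) ^ 2) =
      a * (y - x) + b * ((y - 1 / 2) ^ 2 - (x - 1 / 2) ^ 2) / 2 + c * ((y - 1 / 2) ^ 3 - (x - 1 / 2) ^ 3) / 3 := by
  have h1 : ∀ t ∈ Set.uIcc x y, HasDerivAt (fun t => a * t + b * (t - 1 / 2) ^ 2 / 2 + c * (t - 1 / 2) ^ 3 / 3)
      (a + b * (t - 1 / 2) + c * (t - 1 / 2) ^ 2) t := by
    intro t _
    have h2 : HasDerivAt (fun t : ℝ => t - 1 / 2) 1 t := (hasDerivAt_id t).sub_const _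
    have h3 := (((hasDerivAt_id t).const_mul a).add (((h2.pow 2).const_mul b).div_const 2)).add (((h2.pow 3).const_mul c).div_const 3)
    refine h3.congr_deriv ?_
    ring
  rw [intervalIntegral.integral_eq_sub_of_hasDerivAt h1 (by
    apply Continuous.intervalIntegrable
    fun_prop)]
  ring

theorem bBAS_int (a1 b1 c1 a2 b2 c2 : ℝ) :
    ∫ t in (0 : ℝ)..1, bBAS_Q a1 b1 c1 a2 b2 c2 t = (a1 + a2) / 2 + (b2 - b1) / 8 + (c1 + c2) / 24 := by
  have e1 : ∀ t ∈ Set.Ioo (0 : ℝ) (1 / 2), a1 + b1 * (t - 1 / 2) + c1 * (t - 1 / 2) ^ 2 = bBAS_Q a1 b1 c1 a2 b2 c2 t := by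
    intro t ht
    unfold bBAS_Q
    rw [if_pos ht.2]
  have e2 : ∀ t ∈ Set.Ioo (1 / 2 : ℝ) 1, a2 + b2 * (t - 1 / 2) + c2 * (t - 1 / 2) ^ 2 = bBAS_Q a1 b1 c1 a2 b2 c2 t := by
    intro t ht
    unfold bBAS_Q
    rw [if_neg (not_lt.mpr ht.1.le)]
  have i1 : IntervalIntegrable (bBAS_Q a1 b1 c1 a2 b2 c2) volume 0 (1 / 2) := by
    rw [intervalIntegrable_iff_integrableOn_Ioo_of_le (by norm_num)]
    refine IntegrableOn.congr_fun ?_ e1 measurableSet_Ioo
    rw [← intervalIntegrable_iff_integrableOn_Ioo_of_le (by norm_num)]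
    apply Continuous.intervalIntegrable
    fun_prop
  have i2 : IntervalIntegrable (bBAS_Q a1 b1 c1 a2 b2 c2) volume (1 / 2) 1 := by
    rw [intervalIntegrable_iff_integrableOn_Ioo_of_le (by norm_num)]
    refine IntegrableOn.congr_fun ?_ e2 measurableSet_Ioo
    rw [← intervalIntegrable_iff_integrableOn_Ioo_of_le (by norm_num)]
    apply Continuous.intervalIntegrable
    fun_prop
  have s1 : ∫ t in (0 : ℝ)..(1 / 2), bBAS_Q a1 b1 c1 a2 b2 c2 t = ∫ t in (0 : ℝ)..(1 / 2), (a1 + b1 * (t - 1 / 2) + c1 * (t - 1 / 2) ^ 2) := by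
    rw [intervalIntegral.integral_of_le (by norm_num), intervalIntegral.integral_of_le (by norm_num),
      integral_Ioc_eq_integral_Ioo, integral_Ioc_eq_integral_Ioo]
    exact (setIntegral_congr_fun measurableSet_Ioo e1).symm
  have s2 : ∫ t in (1 / 2 : ℝ)..1, bBAS_Q a1 b1 c1 a2 b2 c2 t = ∫ t in (1 / 2 : ℝ)..1, (a2 + b2 * (t - 1 / 2) + c2 * (t - 1 / 2) ^ 2) := by
    rw [intervalIntegral.integral_of_le (by norm_num), intervalIntegral.integral_of_le (by norm_num),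
      integral_Ioc_eq_integral_Ioo, integral_Ioc_eq_integral_Ioo]
    exact (setIntegral_congr_fun measurableSet_Ioo e2).symm
  rw [← intervalIntegral.integral_add_adjacent_intervals i1 i2, s1, s2, bBAS_half, bBAS_half]
  ring

theorem bBAS_mem (s : ℕ) (k : ℤ) (x : ℝ) : x ∈ cell s k ↔ ci s x = k := by
  have hp : (0 : ℝ) < 2 ^ s := by positivity
  unfold cell ci
  rw [Int.floor_eq_iff, Set.mem_Ico, div_le_iff₀ hp, lt_div_iff₀ hp, mul_comm x]

theorem bBAS_meas (s : ℕ) (k : ℤ) : MeasurableSet (cell s k) := measurableSet_Ico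

theorem bBAS_t (s : ℕ) (k : ℤ) (x : ℝ) (hx : x ∈ cell s k) : 0 ≤ 2 ^ s * x - k ∧ 2 ^ s * x - k < 1 := by
  have hp : (0 : ℝ) < 2 ^ s := by positivity
  unfold cell at hx
  rw [Set.mem_Ico, div_le_iff₀ hp, lt_div_iff₀ hp, mul_comm x] at hx
  exact ⟨by linarith [hx.1], by linarith [hx.2]⟩

theorem bBAS_sub (s : ℕ) (k : ℤ) (g : ℝ → ℝ) : ∫ x in cell s k, g (2 ^ s * x - k) = (2 ^ s)⁻¹ * ∫ t in (0 : ℝ)..1, g t := by
  have hp : (0 : ℝ) < 2 ^ s := by positivity
  unfold cell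
  rw [integral_Ico_eq_integral_Ioc, ← intervalIntegral.integral_of_le (by
    rw [div_le_div_iff_of_pos_right hp]; linarith), intervalIntegral.integral_comp_mul_sub _ hp.ne']
  rw [smul_eq_mul]
  congr 2
  · field_simp; ring
  · field_simp; ring

theorem bBAS_cell (s : ℕ) (k : ℤ) (f : ℝ → ℝ) (a1 b1 c1 a2 b2 c2 : ℝ) (h : ∀ x ∈ cell s k, f x = bBAS_Q a1 b1 c1 a2 b2 c2 (2 ^ s * x - k)) :
    ∫ x in cell s k, f x = (2 ^ s)⁻¹ * ((a1 + a2) / 2 + (b2 - b1) / 8 + (c1 + c2) / 24) := by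
  rw [setIntegral_congr_fun (bBAS_meas s k) h, bBAS_sub, bBAS_int]

/-- the projection of a function which is affine on the two halves of a cell. -/
theorem bBAS_Es (s : ℕ) (k : ℤ) (f : ℝ → ℝ) (a1 b1 a2 b2 : ℝ) (h : ∀ x ∈ cell s k, f x = bBAS_Q a1 b1 0 a2 b2 0 (2 ^ s * x - k))
    (x : ℝ) (hx : x ∈ cell s k) : Es s f x = ((a1 + a2) / 2 + (b2 - b1) / 8) +
      12 * 2 ^ s * (x - ((k : ℝ) + 1 / 2) / 2 ^ s) * ((a2 - a1) / 8 + (b1 + b2) / 24) := by
  have hp : (0 : ℝ) < 2 ^ s := by positivity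
  have hk : ci s x = k := (bBAS_mem s k x).mp hx
  unfold Es mid
  rw [hk, bBAS_cell s k f a1 b1 0 a2 b2 0 h,
    bBAS_cell s k (fun t => (t - ((k : ℝ) + 1 / 2) / 2 ^ s) * f t) 0 (a1 / 2 ^ s) (b1 / 2 ^ s) 0 (a2 / 2 ^ s) (b2 / 2 ^ s) (by
      intro t ht
      simp only [h t ht]
      unfold bBAS_Q
      split_ifs
      · field_simp; ring
      · field_simp; ring)]
  have h3 : (2 : ℝ) ^ (3 * s) = (2 ^ s) ^ 3 := by rw [mul_comm, pow_mul]
  rw [h3]
  field_simp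
  ring

theorem bBAS_hb (a b t : ℝ) : a * hb true t + b * hb false t =
    bBAS_Q (-(a * √48 / 4) - 2 * b) (-(a * √48) - 6 * b) 0 (-(a * √48 / 4) + 2 * b) (a * √48 - 6 * b) 0 t := by
  unfold hb bBAS_Q
  by_cases ht : t < 1 / 2
  · rw [if_pos rfl, if_neg (by simp), if_pos ht, if_pos ht, abs_of_neg (by linarith)]
    ring
  · rw [if_pos rfl, if_neg (by simp), if_neg ht, if_neg ht, abs_of_nonneg (by linarith)]
    ring

theorem bBAS_smul (c a1 b1 a2 b2 t : ℝ) : c * bBAS_Q a1 b1 0 a2 b2 0 t = bBAS_Q (c * a1) (c * b1) 0 (c * a2) (c * b2) 0 t := by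
  unfold bBAS_Q
  split_ifs <;> ring

theorem bBAS_sq (a1 b1 a2 b2 t : ℝ) : bBAS_Q a1 b1 0 a2 b2 0 t ^ 2 = bBAS_Q (a1 ^ 2) (2 * a1 * b1) (b1 ^ 2) (a2 ^ 2) (2 * a2 * b2) (b2 ^ 2) t := by
  unfold bBAS_Q
  split_ifs <;> ring

/-- the part of `syn` in one cell. -/
noncomputable def bBAS_g (s : ℕ) (v : Kc s × Bool → ℝ) (κ : Kc s) (x : ℝ) : ℝ :=
  √(2 ^ s) * (v (κ, true) * hb true (2 ^ s * x - ((κ.1 : ℕ) : ℝ)) + v (κ, false) * hb false (2 ^ s * x - ((κ.1 : ℕ) : ℝ)))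

theorem bBAS_syn (s : ℕ) (v : Kc s × Bool → ℝ) (x : ℝ) :
    syn s v x = ∑ κ : Kc s, (cell s ((κ.1 : ℕ) : ℤ)).indicator (bBAS_g s v κ) x := by
  unfold syn
  rw [Fintype.sum_prod_type]
  apply Finset.sum_congr rfl
  intro κ _
  rw [Fintype.sum_bool]
  by_cases hx : x ∈ cell s ((κ.1 : ℕ) : ℤ)
  · simp only [Set.indicator_of_mem hx]
    unfold bBAS_g
    ring
  · simp only [Set.indicator_of_notMem hx]
    ring

theorem bBAS_inj (s : ℕ) (κ κ' : Kc s) (x : ℝ) (h : x ∈ cell s ((κ.1 : ℕ) : ℤ)) (h' : x ∈ cell s ((κ'.1 : ℕ) : ℤ)) : κ' = κ := by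
  rw [bBAS_mem] at h h'
  apply Subtype.ext
  apply Fin.ext
  have : ((κ.1 : ℕ) : ℤ) = ((κ'.1 : ℕ) : ℤ) := h.symm.trans h'
  exact_mod_cast this.symm

theorem bBAS_one (s : ℕ) (F : Kc s → ℝ → ℝ) (κ : Kc s) (x : ℝ) (h : x ∈ cell s ((κ.1 : ℕ) : ℤ)) :
    ∑ κ' : Kc s, (cell s ((κ'.1 : ℕ) : ℤ)).indicator (F κ') x = F κ x := by
  rw [Finset.sum_eq_single κ]
  · rw [Set.indicator_of_mem h]
  · intro κ' _ hne
    rw [Set.indicator_of_notMem]
    intro h'
    exact hne (bBAS_inj s κ κ' x h h')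
  · intro h'
    exact absurd (Finset.mem_univ _) h'

theorem bBAS_none (s : ℕ) (F : Kc s → ℝ → ℝ) (x : ℝ) (h : ∀ κ : Kc s, x ∉ cell s ((κ.1 : ℕ) : ℤ)) :
    ∑ κ' : Kc s, (cell s ((κ'.1 : ℕ) : ℤ)).indicator (F κ') x = 0 := by
  apply Finset.sum_eq_zero
  intro κ _
  rw [Set.indicator_of_notMem (h κ)]

/-- the local form of `syn`. -/
theorem bBAS_loc (s : ℕ) (v : Kc s × Bool → ℝ) (k : ℤ) : ∃ a b : ℝ, ∀ x ∈ cell s k, syn s v x =
    bBAS_Q (√(2 ^ s) * (-(a * √48 / 4) - 2 * b)) (√(2 ^ s) * (-(a * √48) - 6 * b)) 0 (√(2 ^ s) * (-(a * √48 / 4) + 2 * b)) (√(2 ^ s) * (a * √48 - 6 * b)) 0 (2 ^ s * x - k) := by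
  by_cases hk : ∃ κ : Kc s, ((κ.1 : ℕ) : ℤ) = k
  · obtain ⟨κ, hκ⟩ := hk
    refine ⟨v (κ, true), v (κ, false), fun x hx => ?_⟩
    subst hκ
    rw [bBAS_syn, bBAS_one s (bBAS_g s v) κ x hx, ← bBAS_smul, ← bBAS_hb]
    unfold bBAS_g
    push_cast
    rfl
  · push Not at hk
    refine ⟨0, 0, fun x hx => ?_⟩
    rw [bBAS_syn, bBAS_none s (bBAS_g s v) x (fun κ h => by
      rw [bBAS_mem] at h hx
      exact hk κ (h.symm.trans hx))]
    unfold bBAS_Q
    split_ifs <;> ring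

theorem bBAS_PA (s : ℕ) (f : ℝ → ℝ) (h : ∀ k : ℤ, ∃ a1 b1 a2 b2 : ℝ, ∀ x ∈ cell s k, f x = bBAS_Q a1 b1 0 a2 b2 0 (2 ^ s * x - k)) :
    PA (s + 1) f := by
  intro j
  have hp : (0 : ℝ) < 2 ^ s := by positivity
  have hp1 : (2 : ℝ) ^ (s + 1) = 2 * 2 ^ s := by ring
  obtain ⟨k, hk⟩ := Int.even_or_odd' j
  obtain ⟨a1, b1, a2, b2, hf⟩ := h k
  rcases hk with hk | hk
  · refine ⟨a1 - b1 * (k + 1 / 2), b1 * 2 ^ s, fun x hx => ?_⟩
    obtain ⟨h1, h2⟩ := bBAS_t (s + 1) j x hx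
    rw [hp1, hk] at h1 h2
    push_cast at h1 h2
    have hxk : x ∈ cell s k := by
      rw [bBAS_mem]
      unfold ci
      rw [Int.floor_eq_iff]
      constructor <;> linarith
    rw [hf x hxk]
    unfold bBAS_Q
    rw [if_pos (by linarith)]
    ring
  · refine ⟨a2 - b2 * (k + 1 / 2), b2 * 2 ^ s, fun x hx => ?_⟩
    obtain ⟨h1, h2⟩ := bBAS_t (s + 1) j x hx
    rw [hp1, hk] at h1 h2
    push_cast at h1 h2
    have hxk : x ∈ cell s k := by
      rw [bBAS_mem]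
      unfold ci
      rw [Int.floor_eq_iff]
      constructor <;> linarith
    rw [hf x hxk]
    unfold bBAS_Q
    rw [if_neg (by linarith)]
    ring

theorem bBAS_PA' (s : ℕ) (f : ℝ → ℝ) (h : PA (s + 1) f) (k : ℤ) :
    ∃ a1 b1 a2 b2 : ℝ, ∀ x ∈ cell s k, f x = bBAS_Q a1 b1 0 a2 b2 0 (2 ^ s * x - k) := by
  have hp : (0 : ℝ) < 2 ^ s := by positivity
  have hp1 : (2 : ℝ) ^ (s + 1) = 2 * 2 ^ s := by ring
  obtain ⟨a, b, h1⟩ := h (2 * k)
  obtain ⟨a', b', h2⟩ := h (2 * k + 1)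
  refine ⟨a + b * ((k + 1 / 2) / 2 ^ s), b / 2 ^ s, a' + b' * ((k + 1 / 2) / 2 ^ s), b' / 2 ^ s, fun x hx => ?_⟩
  obtain ⟨h3, h4⟩ := bBAS_t s k x hx
  unfold bBAS_Q
  split_ifs with ht
  · rw [h1 x (by
      rw [bBAS_mem]
      unfold ci
      rw [Int.floor_eq_iff, hp1]
      push_cast
      constructor <;> linarith)]
    field_simp
    ring
  · rw [h2 x (by
      rw [bBAS_mem]
      unfold ci
      rw [Int.floor_eq_iff, hp1]
      push_cast
      constructor <;> linarith)]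
    field_simp
    ring

/-- the moments vanish. -/
theorem bBAS_mom (s : ℕ) (k : ℤ) (f : ℝ → ℝ) (a1 b1 a2 b2 : ℝ) (h : ∀ x ∈ cell s k, f x = bBAS_Q a1 b1 0 a2 b2 0 (2 ^ s * x - k))
    (h0 : ∀ x, Es s f x = 0) : b1 = (7 * a1 + a2) / 2 ∧ b2 = -((a1 + 7 * a2) / 2) := by
  have hp : (0 : ℝ) < 2 ^ s := by positivity
  have hx1 : ((k : ℝ) + 1 / 2) / 2 ^ s ∈ cell s k := by
    rw [bBAS_mem]
    unfold ci
    rw [mul_div_cancel₀ _ hp.ne', Int.floor_eq_iff]
    constructor <;> linarith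
  have hx2 : (k : ℝ) / 2 ^ s ∈ cell s k := by
    rw [bBAS_mem]
    unfold ci
    rw [mul_div_cancel₀ _ hp.ne', Int.floor_eq_iff]
    constructor <;> linarith
  have h1 := bBAS_Es s k f a1 b1 a2 b2 h _ hx1
  have h2 := bBAS_Es s k f a1 b1 a2 b2 h _ hx2
  rw [h0, sub_self, mul_zero, zero_mul, add_zero] at h1
  rw [h0, ← h1, zero_add] at h2
  have h3 : 12 * 2 ^ s * ((k : ℝ) / 2 ^ s - ((k : ℝ) + 1 / 2) / 2 ^ s) = -6 := by
    field_simp
    ring
  rw [h3] at h2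
  constructor <;> linarith

theorem bBAS_hbm (b : Bool) : Measurable (hb b) := by
  cases b
  · have : hb false = fun t : ℝ => (if t < 1 / 2 then (-2 : ℝ) else 2) * (1 - 3 * |t - 1 / 2|) := by
      funext t
      unfold hb
      rw [if_neg (by simp)]
    rw [this]
    refine Measurable.mul (Measurable.ite (measurableSet_lt measurable_id measurable_const) measurable_const measurable_const) ?_
    have : Continuous (fun t : ℝ => 1 - 3 * |t - 1 / 2|) := by fun_prop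
    exact this.measurable
  · have : hb true = fun t : ℝ => √48 * (|t - 1 / 2| - 1 / 4) := by
      funext t
      unfold hb
      rw [if_pos rfl]
    rw [this]
    have : Continuous (fun t : ℝ => √48 * (|t - 1 / 2| - 1 / 4)) := by fun_prop
    exact this.measurable

theorem bBAS_gm (s : ℕ) (v : Kc s × Bool → ℝ) (κ : Kc s) : Measurable (bBAS_g s v κ) := by
  unfold bBAS_g
  have h1 : Measurable (fun x : ℝ => 2 ^ s * x - ((κ.1 : ℕ) : ℝ)) := by
    have : Continuous (fun x : ℝ => 2 ^ s * x - ((κ.1 : ℕ) : ℝ)) := by fun_prop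
    exact this.measurable
  exact (((((bBAS_hbm true).comp h1).const_mul _).add (((bBAS_hbm false).comp h1).const_mul _))).const_mul _

theorem bBAS_Qbd (a1 b1 c1 a2 b2 c2 t : ℝ) (h0 : 0 ≤ t) (h1 : t < 1) :
    |bBAS_Q a1 b1 c1 a2 b2 c2 t| ≤ (|a1| + |b1| + |c1|) + (|a2| + |b2| + |c2|) := by
  have h2 : |t - 1 / 2| ≤ 1 := by rw [abs_le]; constructor <;> linarith
  have h3 : |(t - 1 / 2) ^ 2| ≤ 1 := by
    rw [abs_pow]
    exact pow_le_one₀ (abs_nonneg _) h2
  have key : ∀ a b c : ℝ, |a + b * (t - 1 / 2) + c * (t - 1 / 2) ^ 2| ≤ |a| + |b| + |c| := by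
    intro a b c
    refine (abs_add_le _ _).trans (add_le_add ((abs_add_le _ _).trans (add_le_add le_rfl ?_)) ?_)
    · rw [abs_mul]
      exact mul_le_of_le_one_right (abs_nonneg _) h2
    · rw [abs_mul]
      exact mul_le_of_le_one_right (abs_nonneg _) h3
  unfold bBAS_Q
  split_ifs
  · exact (key _ _ _).trans (le_add_of_nonneg_right (by positivity))
  · exact (key _ _ _).trans (le_add_of_nonneg_left (by positivity))

theorem bBAS_nsq (s : ℕ) (v : Kc s × Bool → ℝ) : nsq (syn s v) = ∑ α, v α ^ 2 := by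
  have hp : (0 : ℝ) < 2 ^ s := by positivity
  have hS : √((2 : ℝ) ^ s) ^ 2 = 2 ^ s := Real.sq_sqrt hp.le
  have h48 : √(48 : ℝ) ^ 2 = 48 := Real.sq_sqrt (by norm_num)
  have hg : ∀ (κ : Kc s) (x : ℝ), bBAS_g s v κ x ^ 2 =
      bBAS_Q ((√(2 ^ s) * (-(v (κ, true) * √48 / 4) - 2 * v (κ, false))) ^ 2)
        (2 * (√(2 ^ s) * (-(v (κ, true) * √48 / 4) - 2 * v (κ, false))) * (√(2 ^ s) * (-(v (κ, true) * √48) - 6 * v (κ, false))))
        ((√(2 ^ s) * (-(v (κ, true) * √48) - 6 * v (κ, false))) ^ 2)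
        ((√(2 ^ s) * (-(v (κ, true) * √48 / 4) + 2 * v (κ, false))) ^ 2)
        (2 * (√(2 ^ s) * (-(v (κ, true) * √48 / 4) + 2 * v (κ, false))) * (√(2 ^ s) * (v (κ, true) * √48 - 6 * v (κ, false))))
        ((√(2 ^ s) * (v (κ, true) * √48 - 6 * v (κ, false))) ^ 2) (2 ^ s * x - ((κ.1 : ℕ) : ℝ)) := by
    intro κ x
    rw [← bBAS_sq, ← bBAS_smul, ← bBAS_hb]
    rfl
  have h1 : ∀ x, syn s v x ^ 2 = ∑ κ : Kc s, (cell s ((κ.1 : ℕ) : ℤ)).indicator (fun x => bBAS_g s v κ x ^ 2) x := by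
    intro x
    rw [bBAS_syn]
    by_cases hk : ∃ κ : Kc s, x ∈ cell s ((κ.1 : ℕ) : ℤ)
    · obtain ⟨κ, hκ⟩ := hk
      rw [bBAS_one s (bBAS_g s v) κ x hκ, bBAS_one s (fun κ x => bBAS_g s v κ x ^ 2) κ x hκ]
    · push Not at hk
      rw [bBAS_none s (bBAS_g s v) x hk, bBAS_none s (fun κ x => bBAS_g s v κ x ^ 2) x hk]
      norm_num
  have hint : ∀ κ : Kc s, Integrable ((cell s ((κ.1 : ℕ) : ℤ)).indicator (fun x => bBAS_g s v κ x ^ 2)) volume := by
    intro κ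
    rw [integrable_indicator_iff (bBAS_meas s _)]
    refine Measure.integrableOn_of_bounded (M := (|((√(2 ^ s) * (-(v (κ, true) * √48 / 4) - 2 * v (κ, false))) ^ 2)| +
        |(2 * (√(2 ^ s) * (-(v (κ, true) * √48 / 4) - 2 * v (κ, false))) * (√(2 ^ s) * (-(v (κ, true) * √48) - 6 * v (κ, false))))| +
        |((√(2 ^ s) * (-(v (κ, true) * √48) - 6 * v (κ, false))) ^ 2)|) +
        (|((√(2 ^ s) * (-(v (κ, true) * √48 / 4) + 2 * v (κ, false))) ^ 2)| +
        |(2 * (√(2 ^ s) * (-(v (κ, true) * √48 / 4) + 2 * v (κ, false))) * (√(2 ^ s) * (v (κ, true) * √48 - 6 * v (κ, false))))| +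
        |((√(2 ^ s) * (v (κ, true) * √48 - 6 * v (κ, false))) ^ 2)|)) (by
      show volume (Set.Ico _ _) ≠ ⊤
      rw [Real.volume_Ico]
      exact ENNReal.ofReal_ne_top) ((bBAS_gm s v κ).pow_const 2).aestronglyMeasurable ?_
    filter_upwards [ae_restrict_mem (μ := volume) (s := cell s ((κ.1 : ℕ) : ℤ)) (bBAS_meas s _)] with x hx
    obtain ⟨h2, h3⟩ := bBAS_t s _ x hx
    rw [Int.cast_natCast] at h2 h3
    rw [Real.norm_eq_abs, hg κ x]
    exact bBAS_Qbd _ _ _ _ _ _ _ h2 h3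
  unfold nsq
  simp_rw [h1]
  rw [integral_finsetSum _ (fun κ _ => hint κ), Fintype.sum_prod_type]
  apply Finset.sum_congr rfl
  intro κ _
  rw [Fintype.sum_bool, integral_indicator (bBAS_meas s _)]
  rw [bBAS_cell s ((κ.1 : ℕ) : ℤ) (fun x => bBAS_g s v κ x ^ 2) _ _ _ _ _ _ (fun x _ => by
    rw [Int.cast_natCast]
    exact hg κ x)]
  rw [inv_mul_eq_iff_eq_mul₀ hp.ne']
  linear_combination (v (κ, true) ^ 2 + v (κ, false) ^ 2 + (v (κ, true) ^ 2 * (√48 ^ 2 - 48)) * (1 / 16 - 1 / 8 + 1 / 12)) * hS +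
    (2 ^ s * v (κ, true) ^ 2 * (1 / 16 - 1 / 8 + 1 / 12)) * h48

theorem bBAS : bBAS_stmt := by
  intro s
  have hp : (0 : ℝ) < 2 ^ s := by positivity
  have h48 : √(48 : ℝ) ^ 2 = 48 := Real.sq_sqrt (by norm_num)
  have h48p : 0 < √(48 : ℝ) := Real.sqrt_pos.mpr (by norm_num)
  have hSp : 0 < √((2 : ℝ) ^ s) := Real.sqrt_pos.mpr hp
  refine ⟨fun v => ⟨?_, ?_, ?_, bBAS_nsq s v⟩, ?_⟩
  · apply bBAS_PA
    intro k
    obtain ⟨a, b, h⟩ := bBAS_loc s v k
    exact ⟨_, _, _, _, h⟩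
  · intro x hx
    rw [bBAS_syn]
    apply bBAS_none
    intro κ h
    apply hx
    unfold cell at h
    have h1 : (2 : ℝ) ^ s ≤ 5 * ((κ.1 : ℕ) : ℝ) := by exact_mod_cast κ.2.1
    have h2 : 5 * (((κ.1 : ℕ) : ℝ) + 1) ≤ 4 * 2 ^ s := by exact_mod_cast κ.2.2
    have h3 := h.1
    have h4 := h.2
    rw [div_le_iff₀ hp] at h3
    rw [lt_div_iff₀ hp] at h4
    push_cast at h3 h4
    constructor
    · by_contra hc
      push Not at hc
      nlinarith
    · by_contra hc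
      push Not at hc
      nlinarith
  · intro x
    obtain ⟨a, b, h⟩ := bBAS_loc s v (ci s x)
    rw [bBAS_Es s (ci s x) (syn s v) _ _ _ _ h x ((bBAS_mem s _ x).mpr rfl)]
    ring
  · intro f hPA hSu hEs
    have hloc := bBAS_PA' s f hPA
    choose a1 b1 a2 b2 hf using hloc
    have hmom := fun k => bBAS_mom s k f (a1 k) (b1 k) (a2 k) (b2 k) (hf k) hEs
    let v : Kc s × Bool → ℝ := fun α =>
      if α.2 then -(2 * (a1 ((α.1.1 : ℕ) : ℤ) + a2 ((α.1.1 : ℕ) : ℤ))) / (√48 * √(2 ^ s))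
      else (a2 ((α.1.1 : ℕ) : ℤ) - a1 ((α.1.1 : ℕ) : ℤ)) / (4 * √(2 ^ s))
    refine ⟨v, ?_⟩
    funext x
    rw [bBAS_syn]
    by_cases hk : ∃ κ : Kc s, x ∈ cell s ((κ.1 : ℕ) : ℤ)
    · obtain ⟨κ, hκ⟩ := hk
      rw [bBAS_one s (bBAS_g s v) κ x hκ, hf _ x hκ]
      obtain ⟨m1, m2⟩ := hmom ((κ.1 : ℕ) : ℤ)
      unfold bBAS_g
      rw [bBAS_hb, bBAS_smul, Int.cast_natCast]
      have e1 : √48 * v (κ, true) * √(2 ^ s) = -(2 * (a1 ((κ.1 : ℕ) : ℤ) + a2 ((κ.1 : ℕ) : ℤ))) := by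
        show √48 * (if true = true then _ else _) * √(2 ^ s) = _
        rw [if_pos rfl]
        field_simp
      have e2 : v (κ, false) * √(2 ^ s) = (a2 ((κ.1 : ℕ) : ℤ) - a1 ((κ.1 : ℕ) : ℤ)) / 4 := by
        show (if false = true then _ else _) * √(2 ^ s) = _
        rw [if_neg (by simp)]
        field_simp
      have q1 : √(2 ^ s) * (-(v (κ, true) * √48 / 4) - 2 * v (κ, false)) = a1 ((κ.1 : ℕ) : ℤ) := by
        linear_combination (-1 / 4) * e1 - 2 * e2
      have q2 : √(2 ^ s) * (-(v (κ, true) * √48) - 6 * v (κ, false)) = b1 ((κ.1 : ℕ) : ℤ) := by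
        rw [m1]
        linear_combination (-1) * e1 - 6 * e2
      have q3 : √(2 ^ s) * (-(v (κ, true) * √48 / 4) + 2 * v (κ, false)) = a2 ((κ.1 : ℕ) : ℤ) := by
        linear_combination (-1 / 4) * e1 + 2 * e2
      have q4 : √(2 ^ s) * (v (κ, true) * √48 - 6 * v (κ, false)) = b2 ((κ.1 : ℕ) : ℤ) := by
        rw [m2]
        linear_combination e1 - 6 * e2
      rw [q1, q2, q3, q4]
    · push Not at hk
      rw [bBAS_none s (bBAS_g s v) x hk]
      by_cases hx : x ∈ Set.Icc (1 / 5 : ℝ) (4 / 5)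
      swap
      · exact hSu x hx
      have hxc : x ∈ cell s (ci s x) := (bBAS_mem s _ x).mpr rfl
      obtain ⟨m1, m2⟩ := hmom (ci s x)
      obtain ⟨t1, t2⟩ := bBAS_t s _ x hxc
      have hk0 : 0 ≤ ci s x := by
        unfold ci
        rw [Int.floor_nonneg]
        have := hx.1
        positivity
      have hk1 : ci s x < 2 ^ s := by
        unfold ci
        rw [Int.floor_lt]
        push_cast
        nlinarith [hx.2]
      have hnot : ¬ ((2 : ℝ) ^ s ≤ 5 * (ci s x : ℝ) ∧ 5 * ((ci s x : ℝ) + 1) ≤ 4 * 2 ^ s) := by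
        rintro ⟨h1, h2⟩
        have h3 : ((ci s x).toNat : ℤ) = ci s x := Int.toNat_of_nonneg hk0
        have h4 : (ci s x).toNat < 2 ^ s := by
          have : ((ci s x).toNat : ℤ) < ((2 ^ s : ℕ) : ℤ) := by
            rw [h3]; push_cast; exact hk1
          exact_mod_cast this
        have h3r : (((ci s x).toNat : ℕ) : ℝ) = (ci s x : ℝ) := by exact_mod_cast h3
        apply hk ⟨⟨(ci s x).toNat, h4⟩, by
          constructor
          · show 2 ^ s ≤ 5 * (ci s x).toNat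
            rw [← h3r] at h1
            exact_mod_cast h1
          · show 5 * ((ci s x).toNat + 1) ≤ 4 * 2 ^ s
            rw [← h3r] at h2
            exact_mod_cast h2⟩
        rw [bBAS_mem]
        exact h3.symm
      -- values of `f` outside `[1/5,4/5]` in the cell
      have hz : ∀ t : ℝ, 0 ≤ t → t < 1 → (((ci s x : ℝ) + t) / 2 ^ s ∉ Set.Icc (1 / 5 : ℝ) (4 / 5)) →
          bBAS_Q (a1 (ci s x)) (b1 (ci s x)) 0 (a2 (ci s x)) (b2 (ci s x)) 0 t = 0 := by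
        intro t ht0 ht1 hout
        have h1 : ((ci s x : ℝ) + t) / 2 ^ s ∈ cell s (ci s x) := by
          unfold cell
          constructor
          · rw [div_le_div_iff_of_pos_right hp]; linarith
          · rw [div_lt_div_iff_of_pos_right hp]; linarith
        have h2 := hf (ci s x) _ h1
        rw [hSu _ hout, mul_div_cancel₀ _ hp.ne', add_sub_cancel_left] at h2
        exact h2.symm
      have hzero : a1 (ci s x) = 0 ∧ a2 (ci s x) = 0 := by
        rcases not_and_or.mp hnot with h1 | h1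
        · push Not at h1
          -- left end is `< 1/5`
          set d : ℝ := min (1 / 4) ((2 ^ s / 5 - (ci s x : ℝ)) / 2) with hd
          have hd0 : 0 < d := lt_min (by norm_num) (by linarith)
          have hd1 : d ≤ 1 / 4 := min_le_left _ _
          have hd2 : d ≤ (2 ^ s / 5 - (ci s x : ℝ)) / 2 := min_le_right _ _
          have z1 := hz 0 le_rfl one_pos (by
            intro h
            have := h.1
            rw [le_div_iff₀ hp] at this
            linarith)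
          have z2 := hz d hd0.le (by linarith) (by
            intro h
            have := h.1
            rw [le_div_iff₀ hp] at this
            linarith)
          unfold bBAS_Q at z1 z2
          rw [if_pos (by norm_num)] at z1
          rw [if_pos (by linarith)] at z2
          have hb1 : b1 (ci s x) = 0 := by
            have : b1 (ci s x) * d = 0 := by linear_combination z2 - z1
            exact (mul_eq_zero.mp this).resolve_right hd0.ne'
          rw [hb1] at z1 m1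
          constructor <;> linarith
        · push Not at h1
          set d : ℝ := min (1 / 4) (((ci s x : ℝ) + 1 - 4 * 2 ^ s / 5) / 2) with hd
          have hd0 : 0 < d := lt_min (by norm_num) (by linarith)
          have hd1 : d ≤ 1 / 4 := min_le_left _ _
          have hd2 : d ≤ ((ci s x : ℝ) + 1 - 4 * 2 ^ s / 5) / 2 := min_le_right _ _
          have z1 := hz (1 - d) (by linarith) (by linarith) (by
            intro h
            have := h.2
            rw [div_le_iff₀ hp] at this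
            linarith)
          have z2 := hz (1 - d / 2) (by linarith) (by linarith) (by
            intro h
            have := h.2
            rw [div_le_iff₀ hp] at this
            linarith)
          unfold bBAS_Q at z1 z2
          rw [if_neg (by linarith)] at z1 z2
          have hb2 : b2 (ci s x) = 0 := by
            have : b2 (ci s x) * d = 0 := by linear_combination 2 * z2 - 2 * z1
            exact (mul_eq_zero.mp this).resolve_right hd0.ne'
          rw [hb2] at z1 m2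
          constructor <;> linarith
      rw [hf (ci s x) x hxc]
      rw [hzero.1, hzero.2] at m1 m2
      rw [hzero.1, hzero.2, m1, m2]
      unfold bBAS_Q
      split_ifs <;> ring

end Pool.Agent.helper90.DH
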